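import Mathlib

/-!
# MP_349e68_an : a hypercyclic composition operator on a little Lipschitz space of a tree
with an infinite backward orbit

The tree is `ℤ` (rooted at `0`) with a ternary tree hanging at every integer.
-/

open Filter Topology

namespace Pool.Agent.Results.MP_349e68_an.InfiniteBackwardOrbit

/-- A rooted, locally finite tree in which only the root may have degree one, given by its root,
its parent map and its depth function `|v|`. -/
structure RootedTree (V : Type) where
  /-- the root `o` -/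
  root : V
  /-- the parent `v⁻` of `v` (used only for `v ≠ o`) -/
  parent : V → V
  /-- the distance `|v|` to the root -/
  depth : V → ℕ
  depth_eq_zero : ∀ v, depth v = 0 ↔ v = root
  depth_parent : ∀ v, v ≠ root → depth v = depth (parent v) + 1
  /-- local finiteness -/
  finite_children : ∀ v, {w | w ≠ root ∧ parent w = v}.Finite
  /-- every vertex has a child -/
  exists_child : ∀ v, ∃ w, w ≠ root ∧ parent w = v

namespace RootedTree

variable {V : Type} (T : RootedTree V)

/-- `f` belongs to the little Lipschitz space `L₀(T)`. -/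
def InL0 (f : V → ℂ) : Prop :=
  ∀ ε : ℝ, 0 < ε → ∃ R : ℕ, ∀ v, R ≤ T.depth v → ‖f v - f (T.parent v)‖ < ε

/-- The norm `max (|f(o)|, sup_{v ≠ o} |f(v) - f(v⁻)|)`. -/
noncomputable def normL (f : V → ℂ) : ℝ :=
  max ‖f T.root‖ (⨆ v : {v : V // v ≠ T.root}, ‖f v - f (T.parent v)‖)

/-- `C_φ` maps `L₀(T)` to itself and is bounded. -/
def BoundedComp (φ : V → V) : Prop :=
  ∃ K : ℝ, ∀ f : V → ℂ, T.InL0 f → T.InL0 (f ∘ φ) ∧ T.normL (f ∘ φ) ≤ K * T.normL f

/-- `lam • C_φ` is hypercyclic on `L₀(T)`: some orbit is dense. -/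
def Hypercyclic (lam : ℂ) (φ : V → V) : Prop :=
  ∃ f : V → ℂ, T.InL0 f ∧ ∀ h : V → ℂ, T.InL0 h → ∀ ε : ℝ, 0 < ε →
    ∃ n : ℕ, T.normL (fun v => lam ^ n * f (φ^[n] v) - h v) < ε

end RootedTree

/-! ### The tree -/

/-- vertices: an integer and a word over `{0,1,2}` (read from the integer outwards). -/
abbrev V : Type := ℤ × List (Fin 3)

/-- parent map on `ℤ` -/
def zpar (x : ℤ) : ℤ := if 0 < x then x - 1 else if x < 0 then x + 1 else 0

/-- parent map -/
def par (v : V) : V := if v.2 = [] then (zpar v.1, []) else (v.1, v.2.dropLast)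

/-- depth -/
def dep (v : V) : ℕ := v.1.natAbs + v.2.length

lemma par_concat (x : ℤ) (b : List (Fin 3)) (c : Fin 3) : par (x, b ++ [c]) = (x, b) := by
  simp [par]

lemma par_nil (x : ℤ) : par (x, []) = (zpar x, []) := by simp [par]

lemma finite_dep (n : ℕ) : {v : V | dep v ≤ n}.Finite := by
  have h1 : ((Set.Icc (-(n:ℤ)) n) ×ˢ {l : List (Fin 3) | l.length ≤ n}).Finite :=
    (Set.finite_Icc _ _).prod (List.finite_length_le (Fin 3) n)
  refine h1.subset ?_
  rintro ⟨x, b⟩ hv
  simp only [dep, Set.mem_ofPred_eq] at hv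
  simp only [Set.mem_prod, Set.mem_Icc, Set.mem_ofPred_eq]
  omega

/-- The tree. -/
def tree : RootedTree V where
  root := (0, [])
  parent := par
  depth := dep
  depth_eq_zero := by
    rintro ⟨x, b⟩
    simp [dep]
  depth_parent := by
    rintro ⟨x, b⟩ hv
    rcases List.eq_nil_or_concat b with h | ⟨b', c, h⟩
    · subst h
      have hx : x ≠ 0 := by rintro rfl; exact hv rfl
      simp only [par_nil, dep, zpar, List.length_nil]
      split_ifs <;> omega
    · subst h
      simp only [List.concat_eq_append, par_concat, dep, List.length_append, List.length_singleton]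
      omega
  finite_children := by
    rintro v
    refine (finite_dep (dep v + 1)).subset ?_
    rintro ⟨x, b⟩ ⟨hv, rfl⟩
    simp only [Set.mem_ofPred_eq]
    rcases List.eq_nil_or_concat b with h | ⟨b', c, h⟩
    · subst h
      simp only [par_nil, dep, zpar, List.length_nil]
      split_ifs <;> omega
    · subst h
      simp only [List.concat_eq_append, par_concat, dep, List.length_append, List.length_singleton]
      omega
  exists_child := by
    rintro ⟨x, b⟩
    refine ⟨(x, b ++ [0]), ?_, par_concat x b 0⟩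
    intro h
    have := congrArg Prod.snd h
    simp at this

/-! ### Distances -/

/-- distance of two words in the ternary tree -/
def ldist : List (Fin 3) → List (Fin 3) → ℕ
  | [], w => w.length
  | (_ :: b), [] => b.length + 1
  | (a :: b), (a' :: b') => if a = a' then ldist b b' else b.length + b'.length + 2

lemma ldist_nil_right (b : List (Fin 3)) : ldist b [] = b.length := by
  cases b <;> simp [ldist]

lemma ldist_self (b : List (Fin 3)) : ldist b b = 0 := by
  induction b with
  | nil => simp [ldist]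
  | cons a b ih => simp [ldist, ih]

lemma ldist_comm (b w : List (Fin 3)) : ldist b w = ldist w b := by
  induction b generalizing w with
  | nil => rw [ldist_nil_right]; simp [ldist]
  | cons a b ih =>
    cases w with
    | nil => simp [ldist]
    | cons a' w =>
      simp only [ldist]
      by_cases h : a = a'
      · rw [if_pos h, if_pos h.symm, ih]
      · rw [if_neg h, if_neg (fun h' => h h'.symm)]; omega

lemma ldist_le (b w : List (Fin 3)) : ldist b w ≤ b.length + w.length := by
  induction b generalizing w with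
  | nil => simp [ldist]
  | cons a b ih =>
    cases w with
    | nil => simp [ldist]
    | cons a' w =>
      simp only [ldist, List.length_cons]
      split_ifs
      · have := ih w; omega
      · omega

lemma le_ldist (b w : List (Fin 3)) : b.length ≤ w.length + ldist b w := by
  induction b generalizing w with
  | nil => simp
  | cons a b ih =>
    cases w with
    | nil => simp [ldist]
    | cons a' w =>
      simp only [ldist, List.length_cons]
      split_ifs
      · have := ih w; omega
      · omega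

lemma ldist_triangle (a b c : List (Fin 3)) : ldist a c ≤ ldist a b + ldist b c := by
  induction a generalizing b c with
  | nil =>
    have := le_ldist c b
    rw [ldist_comm c b] at this
    simpa [ldist] using this
  | cons x a ih =>
    cases b with
    | nil =>
      have := ldist_le (x :: a) c
      rw [ldist_nil_right]
      simpa [ldist] using this
    | cons y b =>
      cases c with
      | nil =>
        have := le_ldist (x :: a) (y :: b)
        rw [ldist_nil_right, ldist_nil_right]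
        omega
      | cons z c =>
        have h1 := ih b c
        have h2 := le_ldist a b
        have h3 := le_ldist c b
        rw [ldist_comm c b] at h3
        have h4 := le_ldist b c
        have h5 := le_ldist b a
        rw [ldist_comm b a] at h5
        have h6 := ldist_le a c
        simp only [ldist]
        by_cases hxy : x = y
        · by_cases hyz : y = z
          · rw [if_pos hxy, if_pos hyz, if_pos (hxy.trans hyz)]; exact h1
          · rw [if_pos hxy, if_neg hyz, if_neg (by rw [hxy]; exact hyz)]; omega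
        · by_cases hyz : y = z
          · rw [if_neg hxy, if_pos hyz, if_neg (by rw [← hyz]; exact hxy)]; omega
          · rw [if_neg hxy, if_neg hyz]
            split_ifs <;> omega

lemma ldist_append (s b w : List (Fin 3)) : ldist (s ++ b) (s ++ w) = ldist b w := by
  induction s with
  | nil => simp
  | cons a s ih => simp [ldist, ih]

lemma ldist_eq_zero {b w : List (Fin 3)} (h : ldist b w = 0) : b = w := by
  induction b generalizing w with
  | nil =>
    simp only [ldist] at h
    exact (List.length_eq_zero_iff.1 h).symm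
  | cons a b ih =>
    cases w with
    | nil => simp [ldist] at h
    | cons a' w =>
      simp only [ldist] at h
      by_cases haa : a = a'
      · rw [if_pos haa] at h
        rw [haa, ih h]
      · rw [if_neg haa] at h
        omega

/-- distance in the tree -/
def D (v w : V) : ℕ :=
  if v.1 = w.1 then ldist v.2 w.2 else (v.1 - w.1).natAbs + v.2.length + w.2.length

lemma D_self (v : V) : D v v = 0 := by simp [D, ldist_self]

lemma D_comm (v w : V) : D v w = D w v := by
  unfold D
  by_cases h : v.1 = w.1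
  · rw [if_pos h, if_pos h.symm, ldist_comm]
  · rw [if_neg h, if_neg (fun h' => h h'.symm)]; omega

lemma D_triangle (u v w : V) : D u w ≤ D u v + D v w := by
  have h1 := ldist_triangle u.2 v.2 w.2
  have h2 := le_ldist u.2 v.2
  have h3 := le_ldist v.2 u.2
  rw [ldist_comm v.2 u.2] at h3
  have h4 := le_ldist v.2 w.2
  have h5 := le_ldist w.2 v.2
  rw [ldist_comm w.2 v.2] at h5
  have h6 := ldist_le u.2 w.2
  unfold D
  split_ifs <;> omega

lemma D_par (v : V) : D v (par v) ≤ 1 := by
  obtain ⟨x, b⟩ := v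
  rcases List.eq_nil_or_concat b with h | ⟨b', c, h⟩
  · subst h
    simp only [par_nil, D, zpar, ldist, List.length_nil]
    split_ifs <;> omega
  · subst h
    simp only [List.concat_eq_append, par_concat, D, if_true]
    have := ldist_append b' [c] []
    simp only [List.append_nil] at this
    rw [this]
    simp [ldist]

lemma dep_le (v w : V) : dep v ≤ dep w + D v w := by
  have h2 := le_ldist v.2 w.2
  unfold dep D
  split_ifs <;> omega

lemma D_eq_zero {v w : V} (h : D v w = 0) : v = w := by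
  unfold D at h
  split_ifs at h with h1
  · exact Prod.ext h1 (ldist_eq_zero h)
  · omega

lemma le_D_of_fst_ne {v w : V} (h : v.1 ≠ w.1) : v.2.length ≤ D v w := by
  unfold D; rw [if_neg h]; omega

/-! ### The map -/

/-- stretching of words: every letter `c` is replaced by `0 c 0` -/
def dbl : List (Fin 3) → List (Fin 3)
  | [] => []
  | (c :: b) => 0 :: c :: 0 :: dbl b

lemma length_dbl (b : List (Fin 3)) : (dbl b).length = 3 * b.length := by
  induction b with
  | nil => simp [dbl]
  | cons a b ih => simp only [dbl, List.length_cons, ih]; omega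

lemma ldist_dbl (b w : List (Fin 3)) : 2 * ldist b w ≤ ldist (dbl b) (dbl w) := by
  induction b generalizing w with
  | nil => simp only [dbl, ldist, length_dbl]; omega
  | cons a b ih =>
    cases w with
    | nil => simp only [dbl, ldist, List.length_cons, length_dbl]; omega
    | cons a' w =>
      simp only [dbl, ldist, if_true, List.length_cons, length_dbl]
      split_ifs
      · exact ih w
      · omega

/-- the special integers -/
def Sp (x : ℤ) : Prop := x ≤ 0 ∨ ∃ m : ℕ, x = 2 ^ m - 1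

/-- the map on the integers -/
def th (x : ℤ) : ℤ := if x ≤ 0 then 2 * x - 1 else (x - 1) / 2

open Classical in
/-- the first letter added at a non-special integer -/
noncomputable def tl (x : ℤ) : List (Fin 3) :=
  if Sp x then [] else if Odd x then [1] else [2]

/-- the self-map of the tree -/
noncomputable def phi (v : V) : V := (th v.1, tl v.1 ++ dbl v.2)

lemma length_phi_ge (v : V) : 2 * v.2.length ≤ (phi v).2.length := by
  simp only [phi, List.length_append, length_dbl]; omega

/-- special vertices -/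
def Z (v : V) : Prop := v.2 = [] ∧ Sp v.1

lemma length_phi_of_not_Z {v : V} (h : ¬ Z v) : 1 ≤ (phi v).2.length := by
  by_cases hb : v.2 = []
  · have hs : ¬ Sp v.1 := fun hs => h ⟨hb, hs⟩
    simp only [phi, List.length_append, tl, if_neg hs]
    split_ifs <;> simp
  · have : 1 ≤ v.2.length := List.length_pos_of_ne_nil hb
    have := length_phi_ge v
    omega

lemma length_iter {v : V} (h : ¬ Z v) (n : ℕ) : 2 ^ n ≤ (phi^[n + 1] v).2.length := by
  induction n with
  | zero => simpa using length_phi_of_not_Z h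
  | succ n ih =>
    rw [Function.iterate_succ_apply']
    have := length_phi_ge (phi^[n+1] v)
    rw [pow_succ]
    omega

lemma D_phi_of_eq {v w : V} (h : v.1 = w.1) : 2 * D v w ≤ D (phi v) (phi w) := by
  obtain ⟨x, b⟩ := v
  obtain ⟨y, c⟩ := w
  simp only at h
  subst h
  simp only [D, phi, if_true]
  rw [ldist_append]
  exact ldist_dbl b c

lemma not_Sp_even {y : ℤ} (hy : 0 ≤ y) : ¬ Sp (2 * y + 2) := by
  rintro (h | ⟨m, hm⟩)
  · omega
  · cases m with
    | zero => simp at hm; omega
    | succ m => rw [pow_succ] at hm; omega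

lemma collide {v w : V} (h : v.1 ≠ w.1) (h2 : th v.1 = th w.1) :
    D (phi v) (phi w) = (phi v).2.length + (phi w).2.length := by
  have hmain : ∀ (y : ℤ) (b c : List (Fin 3)), 0 ≤ y →
      ldist (tl (2 * y + 2) ++ dbl b) (tl (2 * y + 1) ++ dbl c) =
        (tl (2 * y + 2) ++ dbl b).length + (tl (2 * y + 1) ++ dbl c).length := by
    intro y b c hy
    have e1 : tl (2 * y + 2) = [2] := by
      have : ¬ Odd (2 * y + 2) := by
        rw [Int.not_odd_iff_even]; exact ⟨y + 1, by ring⟩
      simp [tl, if_neg (not_Sp_even hy), this]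
    rw [e1]
    by_cases hs : Sp (2 * y + 1)
    · have e2 : tl (2 * y + 1) = [] := by simp [tl, hs]
      rw [e2]
      cases c with
      | nil => simp [dbl, ldist]
      | cons c0 c => simp [dbl, ldist, length_dbl]; omega
    · have e2 : tl (2 * y + 1) = [1] := by
        have : Odd (2 * y + 1) := ⟨y, rfl⟩
        simp [tl, hs, this]
      rw [e2]
      simp [ldist, length_dbl]
      omega
  obtain ⟨x, b⟩ := v
  obtain ⟨x', c⟩ := w
  simp only at h h2
  have hD : D (phi (x, b)) (phi (x', c)) = ldist (tl x ++ dbl b) (tl x' ++ dbl c) := by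
    unfold D
    rw [if_pos (show (phi (x, b)).1 = (phi (x', c)).1 from h2)]
    rfl
  rw [hD]
  simp only [phi]
  have hx : 0 < x := by
    unfold th at h2; split_ifs at h2 <;> omega
  have hx' : 0 < x' := by
    unfold th at h2; split_ifs at h2 <;> omega
  unfold th at h2
  rw [if_neg (by omega), if_neg (by omega)] at h2
  have hcase : (∃ y, 0 ≤ y ∧ x = 2 * y + 2 ∧ x' = 2 * y + 1) ∨
      (∃ y, 0 ≤ y ∧ x = 2 * y + 1 ∧ x' = 2 * y + 2) := by
    rcases lt_or_gt_of_ne h with h3 | h3
    · right; exact ⟨(x - 1) / 2, by omega, by omega, by omega⟩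
    · left; exact ⟨(x - 1) / 2, by omega, by omega, by omega⟩
  rcases hcase with ⟨y, hy, rfl, rfl⟩ | ⟨y, hy, rfl, rfl⟩
  · exact hmain y b c hy
  · rw [ldist_comm, hmain y c b hy, add_comm]

/-- Separation: the images of a non-special vertex stay far from all other images. -/
lemma separation {v w : V} (hne : v ≠ w) (hv : ¬ Z v) (n : ℕ) :
    2 ^ n ≤ D (phi^[n + 1] v) (phi^[n + 1] w) := by
  induction n with
  | zero =>
    simp only [Function.iterate_succ, Function.iterate_zero, Function.comp_apply, id, pow_zero]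
    by_cases h : v.1 = w.1
    · have h3 := D_phi_of_eq h
      have : D v w ≠ 0 := fun h0 => hne (D_eq_zero h0)
      omega
    · have h1 := length_phi_of_not_Z hv
      by_cases h2 : th v.1 = th w.1
      · rw [collide h h2]; omega
      · exact h1.trans (le_D_of_fst_ne h2)
  | succ n ih =>
    have h1 := length_iter hv (n+1)
    rw [Function.iterate_succ_apply' phi (n+1) v, Function.iterate_succ_apply' phi (n+1) w] at *
    set a := phi^[n+1] v
    set b := phi^[n+1] w
    by_cases h : a.1 = b.1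
    · have h3 := D_phi_of_eq h
      rw [pow_succ]; omega
    · by_cases h2 : th a.1 = th b.1
      · rw [collide h h2]; omega
      · exact h1.trans (le_D_of_fst_ne h2)

/-! ### Special vertices -/

lemma phi_Z {x : ℤ} (h : Sp x) : phi (x, []) = (th x, []) := by
  simp [phi, tl, h, dbl]

lemma Sp_th {x : ℤ} (h : Sp x) : Sp (th x) := by
  by_cases hx : x ≤ 0
  · left; unfold th; rw [if_pos hx]; omega
  · rcases h with h | ⟨m, hm⟩
    · omega
    · cases m with
      | zero => simp at hm; omega
      | succ m =>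
        right
        refine ⟨m, ?_⟩
        unfold th; rw [if_neg hx, hm, pow_succ]
        omega

lemma iter_Z {x : ℤ} (h : Sp x) (n : ℕ) : phi^[n] (x, []) = (th^[n] x, []) ∧ Sp (th^[n] x) := by
  induction n with
  | zero => exact ⟨rfl, h⟩
  | succ n ih =>
    rw [Function.iterate_succ_apply', Function.iterate_succ_apply', ih.1, phi_Z ih.2]
    exact ⟨rfl, Sp_th ih.2⟩

lemma iter_neg {x : ℤ} (hx : x ≤ 0) (n : ℕ) : th^[n] x = 1 - 2 ^ n * (1 - x) := by
  induction n with
  | zero => simp
  | succ n ih =>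
    rw [Function.iterate_succ_apply', ih]
    have h1 : (1:ℤ) ≤ 2 ^ n := one_le_pow₀ (by norm_num)
    have h2 : 1 - 2 ^ n * (1 - x) ≤ 0 := by nlinarith
    unfold th
    rw [if_pos h2, pow_succ]; ring

lemma iter_pos_le {m n : ℕ} (h : n ≤ m) : th^[n] ((2:ℤ) ^ m - 1) = 2 ^ (m - n) - 1 := by
  induction n with
  | zero => simp
  | succ n ih =>
    rw [Function.iterate_succ_apply', ih (by omega)]
    obtain ⟨k, hk⟩ : ∃ k, m - n = k + 1 := ⟨m - n - 1, by omega⟩
    have hk' : m - (n+1) = k := by omega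
    rw [hk, hk', pow_succ]
    have h1 : (1:ℤ) ≤ 2 ^ k := one_le_pow₀ (by norm_num)
    unfold th
    rw [if_neg (by omega)]
    omega

lemma iter_pos_ge {m n : ℕ} (h : m ≤ n) : th^[n] ((2:ℤ) ^ m - 1) = 1 - 2 ^ (n - m) := by
  obtain ⟨k, rfl⟩ : ∃ k, n = k + m := ⟨n - m, by omega⟩
  rw [Function.iterate_add_apply, iter_pos_le le_rfl, Nat.sub_self, Nat.add_sub_cancel]
  have := iter_neg (x := 0) le_rfl k
  simpa using this

lemma pow_diff {a b : ℕ} (h : a ≠ b) : (2:ℤ) ^ (min a b) ≤ |2 ^ a - 2 ^ b| := by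
  rcases lt_or_gt_of_ne h with h1 | h1
  · rw [min_eq_left h1.le]
    have : (2:ℤ) ^ (a+1) ≤ 2 ^ b := pow_le_pow_right₀ (by norm_num) (by omega)
    rw [pow_succ] at this
    have h0 : (0:ℤ) < 2 ^ a := by positivity
    rw [abs_of_nonpos (by linarith)]
    linarith
  · rw [min_eq_right h1.le]
    have : (2:ℤ) ^ (b+1) ≤ 2 ^ a := pow_le_pow_right₀ (by norm_num) (by omega)
    rw [pow_succ] at this
    have h0 : (0:ℤ) < 2 ^ b := by positivity
    rw [abs_of_nonneg (by linarith)]
    linarith

/-- Separation of special vertices, forward in time. -/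
lemma sep_Z {x : ℤ} (hx : Sp x) : ∃ m : ℕ, ∀ n, m < n →
    (2:ℤ) ^ (n - m - 1) ≤ |th^[n] x| + 1 ∧
    ∀ y, Sp y → y ≠ x → (2:ℤ) ^ (n - m - 1) ≤ |th^[n] x - th^[n] y| + 1 := by
  have hneg : ∀ x y : ℤ, x ≤ 0 → Sp y → y ≠ x → ∀ n : ℕ, 0 < n →
      (2:ℤ) ^ (n - 1) ≤ |th^[n] x - th^[n] y| + 1 := by
    intro x y hx hy hne n hn
    have hp : (2:ℤ) ^ n = 2 * 2 ^ (n-1) := by
      obtain ⟨k, rfl⟩ : ∃ k, n = k + 1 := ⟨n - 1, by omega⟩
      rw [pow_succ]; simp; ring
    have h1 : (1:ℤ) ≤ 2 ^ (n-1) := one_le_pow₀ (by norm_num)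
    rw [iter_neg hx]
    by_cases hy0 : y ≤ 0
    · rw [iter_neg hy0]
      have e : (1 - 2 ^ n * (1 - x)) - (1 - 2 ^ n * (1 - y)) = 2 ^ n * (x - y) := by ring
      rw [e, abs_mul, abs_of_pos (by positivity : (0:ℤ) < 2 ^ n), hp]
      have h2 : 1 ≤ |x - y| := Int.one_le_abs (sub_ne_zero.2 (Ne.symm hne))
      nlinarith
    · obtain ⟨m', hm'⟩ : ∃ m : ℕ, y = 2 ^ m - 1 := by
        rcases hy with h | h
        · exact absurd h hy0
        · exact h
      have hm0 : m' ≠ 0 := by rintro rfl; simp at hm'; omega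
      rcases le_total n m' with h3 | h3
      · rw [hm', iter_pos_le h3]
        have h4 : (1:ℤ) ≤ 2 ^ (m' - n) := one_le_pow₀ (by norm_num)
        rw [abs_of_nonpos (by rw [hp]; nlinarith), hp]
        nlinarith
      · rw [hm', iter_pos_ge h3]
        have h4 : (2:ℤ) ^ (n - m') ≤ 2 ^ (n - 1) := pow_le_pow_right₀ (by norm_num) (by omega)
        rw [abs_of_nonpos (by rw [hp]; nlinarith), hp]
        nlinarith
  by_cases hx0 : x ≤ 0
  · refine ⟨0, fun n hn => ⟨?_, fun y hy hne => ?_⟩⟩
    · rw [iter_neg hx0]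
      have hp : (2:ℤ) ^ n = 2 * 2 ^ (n-1) := by
        obtain ⟨k, rfl⟩ : ∃ k, n = k + 1 := ⟨n - 1, by omega⟩
        rw [pow_succ]; simp; ring
      have h1 : (1:ℤ) ≤ 2 ^ (n-1) := one_le_pow₀ (by norm_num)
      rw [abs_of_nonpos (by rw [hp]; nlinarith), hp, Nat.sub_zero]
      nlinarith
    · simpa using hneg x y hx0 hy hne n hn
  · obtain ⟨m, hm⟩ : ∃ m : ℕ, x = 2 ^ m - 1 := by
      rcases hx with h | h
      · exact absurd h hx0
      · exact h
    refine ⟨m, fun n hn => ⟨?_, fun y hy hne => ?_⟩⟩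
    · rw [hm, iter_pos_ge hn.le]
      have hp : (2:ℤ) ^ (n - m - 1) ≤ 2 ^ (n-m) := pow_le_pow_right₀ (by norm_num) (by omega)
      have h1 : (1:ℤ) ≤ 2 ^ (n-m) := one_le_pow₀ (by norm_num)
      rw [abs_of_nonpos (by linarith)]
      linarith
    · by_cases hy0 : y ≤ 0
      · have h1 := hneg y x hy0 (Or.inr ⟨m, hm⟩) (Ne.symm hne) n (by omega)
        rw [abs_sub_comm] at h1
        refine le_trans (pow_le_pow_right₀ (by norm_num) (by omega)) h1
      · obtain ⟨m', hm'⟩ : ∃ m : ℕ, y = 2 ^ m - 1 := by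
          rcases hy with h | h
          · exact absurd h hy0
          · exact h
        have hmm : m ≠ m' := by rintro rfl; exact hne (hm'.trans hm.symm)
        have hp : (2:ℤ) ^ (n - m) = 2 * 2 ^ (n-m-1) := by
          obtain ⟨k, hk⟩ : ∃ k, n - m = k + 1 := ⟨n - m - 1, by omega⟩
          rw [hk, pow_succ]; simp; ring
        have h1 : (1:ℤ) ≤ 2 ^ (n-m-1) := one_le_pow₀ (by norm_num)
        rw [hm, iter_pos_ge hn.le, hm']
        rcases le_total n m' with h3 | h3
        · rw [iter_pos_le h3]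
          have h4 : (1:ℤ) ≤ 2 ^ (m' - n) := one_le_pow₀ (by norm_num)
          rw [abs_of_nonpos (by rw [hp]; linarith), hp]
          linarith
        · rw [iter_pos_ge h3]
          have h4 := pow_diff (a := n - m) (b := n - m') (by omega)
          have h5 : (2:ℤ) ^ (n - m - 1) ≤ 2 ^ (min (n - m) (n - m')) ∨
              (2:ℤ) ^ (n - m - 1) ≤ |2 ^ (n - m) - 2 ^ (n - m')| := by
            by_cases hlt : m < m'
            · right
              have h6 : (2:ℤ) ^ (n - m') ≤ 2 ^ (n - m - 1) :=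
                pow_le_pow_right₀ (by norm_num) (by omega)
              rw [abs_of_nonneg (by rw [hp]; linarith), hp]
              linarith
            · left
              refine pow_le_pow_right₀ (by norm_num) ?_
              rw [min_eq_left (by omega)]; omega
          have e : (1 - (2:ℤ) ^ (n - m)) - (1 - 2 ^ (n - m')) = -(2 ^ (n - m) - 2 ^ (n - m')) := by
            ring
          rw [e, abs_neg]
          rcases h5 with h5 | h5 <;> linarith

lemma D_nil (x y : ℤ) : D (x, []) (y, []) = (x - y).natAbs := by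
  unfold D
  by_cases h : x = y
  · subst h; simp [ldist]
  · simp [h]

lemma length_le_D (v : V) : v.2.length ≤ D (0, []) v := by
  unfold D
  split_ifs <;> simp [ldist]

lemma Z_eq {v : V} (h : Z v) : v = (v.1, []) := Prod.ext rfl h.1

/-- The combinatorial core: at some time `n` the following happens. -/
lemma good_time (F G : Finset V) (N : ℕ) : ∃ n : ℕ,
    (∀ p ∈ G, ∀ q, q ≠ p → N ≤ D (phi^[n] p) (phi^[n] q)) ∧
    (∀ p ∈ G, N ≤ D (0, []) (phi^[n] p)) ∧
    {w | phi^[n] w ∈ F}.Finite ∧
    (∀ w, phi^[n] w ∈ F → N ≤ D (0, []) w) ∧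
    (∀ w w', phi^[n] w ∈ F → phi^[n] w' ∈ F → w ≠ w' → N ≤ D w w') ∧
    (∀ u w, phi^[n] u ∉ F → phi^[n] w ∈ F → D u w < N →
      (∀ u', u ≠ u' → N ≤ D (phi^[n] u) (phi^[n] u')) ∧ N ≤ D (0, []) (phi^[n] u)) := by
  classical
  -- the delays of the special points of `G`
  have hm : ∃ m0 : ℕ, ∀ p ∈ G, Z p → ∀ n, m0 ≤ n →
      ((N:ℤ) + 1 ≤ |th^[n] p.1| + 1 ∧
      ∀ y, Sp y → y ≠ p.1 → (N:ℤ) + 1 ≤ |th^[n] p.1 - th^[n] y| + 1) := by
    have h1 : ∀ p : V, ∃ m0 : ℕ, Z p → ∀ n, m0 ≤ n →
      ((N:ℤ) + 1 ≤ |th^[n] p.1| + 1 ∧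
      ∀ y, Sp y → y ≠ p.1 → (N:ℤ) + 1 ≤ |th^[n] p.1 - th^[n] y| + 1) := by
      intro p
      by_cases hp : Z p
      · obtain ⟨m, hm⟩ := sep_Z hp.2
        refine ⟨m + N + 2, fun _ n hn => ?_⟩
        have h2 : ((N:ℤ) + 1) ≤ 2 ^ (n - m - 1) := by
          have h3 : n - m - 1 < 2 ^ (n - m - 1) := Nat.lt_two_pow_self
          have h4 : N + 1 ≤ 2 ^ (n - m - 1) := by omega
          exact_mod_cast h4
        obtain ⟨a, b⟩ := hm n (by omega)
        exact ⟨h2.trans a, fun y hy hne => h2.trans (b y hy hne)⟩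
      · exact ⟨0, fun h => absurd h hp⟩
    choose m0 hm0 using h1
    refine ⟨G.sup m0, fun p hp hZ n hn => hm0 p hZ n ((Finset.le_sup hp).trans hn)⟩
  obtain ⟨m0, hm0⟩ := hm
  set M : ℕ := F.sup dep with hM
  have hdep : ∀ v ∈ F, dep v ≤ M := fun v hv => Finset.le_sup hv
  set L : ℕ := M + N + 3 with hL
  have hL2 : L < 2 ^ L := Nat.lt_two_pow_self
  obtain ⟨k, hk⟩ : ∃ k, k = m0 + 2 * L + 3 := ⟨_, rfl⟩
  have hkp : k < 2 ^ k := Nat.lt_two_pow_self
  refine ⟨k + 1, ?_⟩
  have hsepN : ∀ u u', u ≠ u' → ¬ Z u → N ≤ D (phi^[k+1] u) (phi^[k+1] u') := by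
    intro u u' hne hu
    have := separation hne hu k
    omega
  have hhtN : ∀ u, ¬ Z u → N ≤ D (0, []) (phi^[k+1] u) := by
    intro u hu
    have h1 := length_iter hu k
    have h2 := length_le_D (phi^[k+1] u)
    omega
  have hU : ∀ w, phi^[k+1] w ∈ F → ∃ m : ℕ, L + 3 ≤ m ∧ m < k + 1 + L ∧ w = ((2:ℤ) ^ m - 1, []) := by
    intro w hw
    have hd := hdep _ hw
    have hZ : Z w := by
      by_contra hcon
      have h1 := length_iter hcon k
      have h2 : (phi^[k+1] w).2.length ≤ dep (phi^[k+1] w) := by unfold dep; omega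
      omega
    rw [Z_eq hZ, (iter_Z hZ.2 (k+1)).1] at hd
    have hd' : |th^[k+1] w.1| ≤ M := by
      simp only [dep, List.length_nil, add_zero] at hd
      rw [Int.abs_eq_natAbs]
      exact_mod_cast hd
    have hw0 : ¬ w.1 ≤ 0 := by
      intro h0
      rw [iter_neg h0] at hd'
      have h1 : ((k:ℤ) + 2) ≤ 2 ^ (k+1) := by
        have : k + 1 < 2 ^ (k+1) := Nat.lt_two_pow_self
        exact_mod_cast this
      have h2 : (2:ℤ) ^ (k+1) ≤ 2 ^ (k+1) * (1 - w.1) := by nlinarith
      rw [abs_of_nonpos (by omega)] at hd'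
      omega
    obtain ⟨m, hm⟩ : ∃ m : ℕ, w.1 = 2 ^ m - 1 := by
      rcases hZ.2 with h | h
      · exact absurd h hw0
      · exact h
    have hML : ((M:ℤ) + 1) < 2 ^ L := by
      have : M + 1 < 2 ^ L := by omega
      exact_mod_cast this
    refine ⟨m, ?_, ?_, by rw [Z_eq hZ, hm]⟩
    · by_contra hcon
      rw [hm, iter_pos_ge (by omega : m ≤ k+1)] at hd'
      have h1 : (2:ℤ) ^ L ≤ 2 ^ (k + 1 - m) := pow_le_pow_right₀ (by norm_num) (by omega)
      rw [abs_of_nonpos (by omega)] at hd'
      omega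
    · by_contra hcon
      rw [hm, iter_pos_le (by omega : k+1 ≤ m)] at hd'
      have h1 : (2:ℤ) ^ L ≤ 2 ^ (m - (k + 1)) := pow_le_pow_right₀ (by norm_num) (by omega)
      rw [abs_of_nonneg (by omega)] at hd'
      omega
  have hbig : ∀ m : ℕ, L + 2 ≤ m → (N:ℤ) + 3 ≤ 2 ^ m := by
    intro m hm
    have h1 : m < 2 ^ m := Nat.lt_two_pow_self
    have h2 : N + 3 ≤ 2 ^ m := by omega
    exact_mod_cast h2
  refine ⟨?_, ?_, ?_, ?_, ?_, ?_⟩
  · intro p hp q hqp
    by_cases hZp : Z p
    · by_cases hZq : Z q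
      · have hne : q.1 ≠ p.1 := by
          intro h; apply hqp
          rw [Z_eq hZp, Z_eq hZq, h]
        have h1 := (hm0 p hp hZp (k+1) (by omega)).2 q.1 hZq.2 hne
        rw [Z_eq hZp, Z_eq hZq, (iter_Z hZp.2 (k+1)).1, (iter_Z hZq.2 (k+1)).1, D_nil]
        rw [Int.abs_eq_natAbs] at h1
        omega
      · rw [D_comm]; exact hsepN q p hqp hZq
    · exact hsepN p q (Ne.symm hqp) hZp
  · intro p hp
    by_cases hZp : Z p
    · have h1 := (hm0 p hp hZp (k+1) (by omega)).1
      rw [Z_eq hZp, (iter_Z hZp.2 (k+1)).1, D_nil]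
      rw [Int.abs_eq_natAbs] at h1
      omega
    · exact hhtN p hZp
  · refine ((Finset.range (k + 1 + L)).image
      (fun m : ℕ => (((2:ℤ) ^ m - 1, []) : V))).finite_toSet.subset ?_
    intro w hw
    obtain ⟨m, _, h2, h3⟩ := hU w hw
    simp only [Finset.coe_image, Set.mem_image, Finset.coe_range, Set.mem_Iio]
    exact ⟨m, h2, h3.symm⟩
  · intro w hw
    obtain ⟨m, h1, h2, rfl⟩ := hU w hw
    rw [D_nil]
    have := hbig m (by omega)
    omega
  · intro w w' hw hw' hne
    obtain ⟨m, h1, h2, rfl⟩ := hU w hw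
    obtain ⟨m', h1', h2', rfl⟩ := hU w' hw'
    rw [D_nil]
    have hmm : m ≠ m' := by rintro rfl; exact hne rfl
    have h3 := pow_diff hmm
    have h4 := hbig (min m m') (by omega)
    have e : ((2:ℤ) ^ m - 1) - (2 ^ m' - 1) = 2 ^ m - 2 ^ m' := by ring
    rw [e]
    rw [Int.abs_eq_natAbs] at h3
    omega
  · intro u w hu hw hD
    have hZu : ¬ Z u := by
      intro hZu
      obtain ⟨m, h1, h2, rfl⟩ := hU w hw
      rw [Z_eq hZu, D_nil] at hD
      have hb := hbig m (by omega)
      by_cases hy0 : u.1 ≤ 0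
      · omega
      · obtain ⟨m', hm'⟩ : ∃ m : ℕ, u.1 = 2 ^ m - 1 := by
          rcases hZu.2 with h | h
          · exact absurd h hy0
          · exact h
        have hmm : m ≠ m' := by
          rintro rfl
          apply hu
          rw [Z_eq hZu, hm']
          exact hw
        rcases lt_or_gt_of_ne hmm with h3 | h3
        · have h4 := pow_diff hmm
          rw [min_eq_left h3.le, Int.abs_eq_natAbs] at h4
          omega
        · obtain ⟨m1, rfl⟩ : ∃ m1, m = m1 + 1 := ⟨m - 1, by omega⟩
          have h4 : (2:ℤ) ^ m' ≤ 2 ^ m1 := pow_le_pow_right₀ (by norm_num) (by omega)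
          have h5 := hbig m1 (by omega)
          rw [pow_succ] at hD
          omega
    exact ⟨fun u' hne => hsepN u u' hne hZu, hhtN u hZu⟩

/-! ### Functions with small differences -/

/-- `f` has norm at most `ε`. -/
def Bd (f : V → ℂ) (ε : ℝ) : Prop := ‖f (0, [])‖ ≤ ε ∧ ∀ v, ‖f v - f (par v)‖ ≤ ε

lemma Bd.nonneg {f : V → ℂ} {ε : ℝ} (h : Bd f ε) : 0 ≤ ε := (norm_nonneg _).trans h.1

lemma Bd.mono {f : V → ℂ} {ε δ : ℝ} (h : Bd f ε) (h' : ε ≤ δ) : Bd f δ :=
  ⟨h.1.trans h', fun v => (h.2 v).trans h'⟩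

lemma Bd.add {f g : V → ℂ} {ε δ : ℝ} (hf : Bd f ε) (hg : Bd g δ) :
    Bd (fun v => f v + g v) (ε + δ) := by
  refine ⟨(norm_add_le _ _).trans (add_le_add hf.1 hg.1), fun v => ?_⟩
  have : f v + g v - (f (par v) + g (par v)) = (f v - f (par v)) + (g v - g (par v)) := by ring
  rw [this]
  exact (norm_add_le _ _).trans (add_le_add (hf.2 v) (hg.2 v))

lemma Bd.neg {f : V → ℂ} {ε : ℝ} (hf : Bd f ε) : Bd (fun v => - f v) ε := by
  refine ⟨by rw [norm_neg]; exact hf.1, fun v => ?_⟩
  have : -f v - -f (par v) = -(f v - f (par v)) := by ring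
  rw [this, norm_neg]
  exact hf.2 v

lemma diff_append {f : V → ℂ} {ε : ℝ} (h : Bd f ε) (x : ℤ) (s r : List (Fin 3)) :
    ‖f (x, s ++ r) - f (x, s)‖ ≤ r.length * ε := by
  induction r using List.reverseRecOn with
  | nil => simp
  | append_singleton r c ih =>
    have h1 := h.2 (x, s ++ (r ++ [c]))
    rw [← List.append_assoc, par_concat] at h1
    rw [← List.append_assoc]
    have e : f (x, s ++ r ++ [c]) - f (x, s) =
        (f (x, s ++ r ++ [c]) - f (x, s ++ r)) + (f (x, s ++ r) - f (x, s)) := by ring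
    rw [e]
    refine (norm_add_le _ _).trans ?_
    simp only [List.length_append, List.length_singleton, Nat.cast_add, Nat.cast_one]
    linarith

lemma diff_succ {f : V → ℂ} {ε : ℝ} (h : Bd f ε) (z : ℤ) :
    ‖f (z + 1, []) - f (z, [])‖ ≤ ε := by
  rcases le_or_gt 0 z with hz | hz
  · have h1 := h.2 (z + 1, [])
    have e : zpar (z + 1) = z := by unfold zpar; rw [if_pos (by omega)]; ring
    rw [par_nil, e] at h1
    exact h1
  · have h1 := h.2 (z, [])
    have e : zpar z = z + 1 := by unfold zpar; rw [if_neg (by omega), if_pos hz]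
    rw [par_nil, e] at h1
    rw [norm_sub_rev]
    exact h1

lemma diff_int {f : V → ℂ} {ε : ℝ} (h : Bd f ε) (x y : ℤ) :
    ‖f (x, []) - f (y, [])‖ ≤ (x - y).natAbs * ε := by
  have h1 : ∀ (z : ℤ) (n : ℕ), ‖f (z + n, []) - f (z, [])‖ ≤ n * ε := by
    intro z n
    induction n with
    | zero => simp
    | succ n ih =>
      have h2 := diff_succ h (z + n)
      have e : f (z + ((n+1 : ℕ) : ℤ), []) - f (z, []) =
          (f (z + n + 1, []) - f (z + n, [])) + (f (z + n, []) - f (z, [])) := by
        push_cast; ring_nf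
      rw [e]
      refine (norm_add_le _ _).trans ?_
      push_cast
      linarith
  rcases le_total y x with hyx | hyx
  · have h2 := h1 y (x - y).natAbs
    have e : y + ((x - y).natAbs : ℤ) = x := by omega
    rwa [e] at h2
  · have h2 := h1 x (x - y).natAbs
    have e : x + ((x - y).natAbs : ℤ) = y := by omega
    rw [e, norm_sub_rev] at h2
    exact h2

lemma ldist_split (b w : List (Fin 3)) : ∃ s r r', b = s ++ r ∧ w = s ++ r' ∧
    ldist b w = r.length + r'.length := by
  induction b generalizing w with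
  | nil => exact ⟨[], [], w, rfl, rfl, by simp [ldist]⟩
  | cons a b ih =>
    cases w with
    | nil => exact ⟨[], a :: b, [], rfl, rfl, by simp [ldist]⟩
    | cons a' w =>
      by_cases h : a = a'
      · subst h
        obtain ⟨s, r, r', h1, h2, h3⟩ := ih w
        exact ⟨a :: s, r, r', by simp [← h1], by simp [← h2], by simp [ldist, h3]⟩
      · refine ⟨[], a :: b, a' :: w, rfl, rfl, ?_⟩
        simp only [ldist, if_neg h, List.length_cons]; omega

lemma Bd.diff {f : V → ℂ} {ε : ℝ} (h : Bd f ε) (v w : V) : ‖f v - f w‖ ≤ D v w * ε := by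
  obtain ⟨x, b⟩ := v
  obtain ⟨y, c⟩ := w
  by_cases hxy : x = y
  · subst hxy
    obtain ⟨s, r, r', rfl, rfl, h3⟩ := ldist_split b c
    have hD : D (x, s ++ r) (x, s ++ r') = r.length + r'.length := by simp [D, h3]
    rw [hD]
    have h1 := diff_append h x s r
    have h2 := diff_append h x s r'
    rw [norm_sub_rev] at h2
    have e : f (x, s ++ r) - f (x, s ++ r') =
        (f (x, s ++ r) - f (x, s)) + (f (x, s) - f (x, s ++ r')) := by ring
    rw [e]
    refine (norm_add_le _ _).trans ?_
    push_cast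
    linarith
  · have hD : D (x, b) (y, c) = (x - y).natAbs + b.length + c.length := by simp [D, hxy]
    rw [hD]
    have h1 := diff_append h x [] b
    have h2 := diff_append h y [] c
    rw [norm_sub_rev] at h2
    have h3 := diff_int h x y
    simp only [List.nil_append] at h1 h2
    have e : f (x, b) - f (y, c) =
        (f (x, b) - f (x, [])) + (f (x, []) - f (y, [])) + (f (y, []) - f (y, c)) := by ring
    rw [e]
    refine (norm_add₃_le).trans ?_
    push_cast
    linarith

lemma D_le_sum (v w : V) : D v w ≤ (v.1 - w.1).natAbs + v.2.length + w.2.length := by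
  have := ldist_le v.2 w.2
  unfold D
  split_ifs <;> omega

lemma dbl_append (b c : List (Fin 3)) : dbl (b ++ c) = dbl b ++ dbl c := by
  induction b with
  | nil => simp [dbl]
  | cons a b ih => simp [dbl, ih]

lemma length_tl (x : ℤ) : (tl x).length ≤ 1 := by
  unfold tl
  split_ifs <;> simp

lemma D_phi_par (v : V) : D (phi v) (phi (par v)) ≤ 4 := by
  obtain ⟨x, b⟩ := v
  rcases List.eq_nil_or_concat b with h | ⟨b', c, h⟩
  · subst h
    rw [par_nil]
    refine (D_le_sum _ _).trans ?_
    have h1 := length_tl x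
    have h2 := length_tl (zpar x)
    simp only [phi, dbl, List.append_nil]
    have h3 : (th x - th (zpar x)).natAbs ≤ 2 := by
      unfold th zpar
      split_ifs <;> omega
    omega
  · subst h
    rw [List.concat_eq_append, par_concat]
    simp only [phi, D, if_true, dbl_append]
    rw [← List.append_assoc]
    have h1 := ldist_append (tl x ++ dbl b') (dbl [c]) []
    rw [List.append_nil] at h1
    rw [h1, ldist_nil_right]
    simp [dbl]

lemma phi_root : phi (0, []) = (-1, []) := by
  have : Sp 0 := Or.inl le_rfl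
  rw [phi_Z this]
  simp [th]

lemma Bd.comp {f : V → ℂ} {ε : ℝ} (h : Bd f ε) : Bd (f ∘ phi) (4 * ε) := by
  have h0 := h.nonneg
  constructor
  · simp only [Function.comp_apply, phi_root]
    have h1 := h.diff (-1, []) (0, [])
    rw [D_nil] at h1
    have h2 : ‖f (-1, [])‖ ≤ ‖f (-1, []) - f (0, [])‖ + ‖f (0, [])‖ := by
      have := norm_add_le (f (-1, []) - f (0, [])) (f (0, []))
      simpa using this
    have h3 := h.1
    norm_num at h1
    linarith
  · intro v
    simp only [Function.comp_apply]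
    refine (h.diff _ _).trans ?_
    have : (D (phi v) (phi (par v)) : ℝ) ≤ 4 := by exact_mod_cast D_phi_par v
    gcongr

lemma Bd.iter {f : V → ℂ} {ε : ℝ} (h : Bd f ε) (n : ℕ) : Bd (f ∘ phi^[n]) (4 ^ n * ε) := by
  induction n with
  | zero => simpa using h
  | succ n ih =>
    have := ih.comp
    rw [Function.comp_assoc, ← Function.iterate_succ] at this
    refine this.mono (le_of_eq ?_)
    rw [pow_succ]; ring

lemma dep_phi (v : V) : dep v ≤ 2 * dep (phi v) + 2 := by
  have h1 := length_phi_ge v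
  have h2 : v.1.natAbs ≤ 2 * (th v.1).natAbs + 2 := by
    unfold th
    split_ifs <;> omega
  unfold dep
  have h3 : (phi v).1 = th v.1 := rfl
  rw [h3]
  omega

/-- finite support -/
def FS (f : V → ℂ) : Prop := {v | f v ≠ 0}.Finite

lemma FS_of_dep {f : V → ℂ} (n : ℕ) (h : ∀ v, f v ≠ 0 → dep v ≤ n) : FS f :=
  (finite_dep n).subset h

lemma FS.exists_dep {f : V → ℂ} (h : FS f) : ∃ n, ∀ v, f v ≠ 0 → dep v ≤ n := by
  exact ⟨h.toFinset.sup dep, fun v hv => Finset.le_sup ((Set.Finite.mem_toFinset h).2 hv)⟩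

lemma FS.add {f g : V → ℂ} (hf : FS f) (hg : FS g) : FS (fun v => f v + g v) := by
  refine (hf.union hg).subset ?_
  intro v hv
  by_contra hcon
  simp only [Set.mem_union, Set.mem_ofPred_eq, not_or, not_not] at hcon
  apply hv
  simp [hcon.1, hcon.2]

lemma FS.comp_phi {f : V → ℂ} (hf : FS f) : FS (f ∘ phi) := by
  obtain ⟨n, hn⟩ := hf.exists_dep
  refine FS_of_dep (2 * n + 2) (fun v hv => ?_)
  have h1 := hn _ hv
  have h2 := dep_phi v
  omega

lemma normL_le {f : V → ℂ} {ε : ℝ} (h : Bd f ε) : tree.normL f ≤ ε := by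
  refine max_le h.1 ?_
  exact Real.iSup_le (fun v => h.2 v) h.nonneg

lemma InL0_of_approx {f : V → ℂ} (h : ∀ ε : ℝ, 0 < ε → ∃ g, FS g ∧ Bd (fun v => f v - g v) ε) :
    tree.InL0 f := by
  intro ε hε
  obtain ⟨g, hg, hb⟩ := h (ε/2) (by positivity)
  obtain ⟨n, hn⟩ := hg.exists_dep
  refine ⟨n + 2, fun v hv => ?_⟩
  have hv' : n + 2 ≤ dep v := hv
  have hpar : n < dep (par v) := by
    have := dep_le v (par v)
    have := D_par v
    omega
  have h1 : g v = 0 := by
    by_contra hcon
    have := hn v hcon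
    omega
  have h2 : g (par v) = 0 := by
    by_contra hcon
    have := hn _ hcon
    omega
  have h3 : ‖(f v - g v) - (f (par v) - g (par v))‖ ≤ ε / 2 := hb.2 v
  rw [h1, h2] at h3
  have e : tree.parent v = par v := rfl
  rw [e]
  have e2 : f v - f (par v) = f v - 0 - (f (par v) - 0) := by ring
  rw [e2]
  linarith

/-! ### Bumps -/

/-- a bump of radius `N/2` around `c` -/
noncomputable def bp (N : ℕ) (v c : V) : ℝ := max 0 (1 - 2 * (D v c : ℝ) / N)

lemma bp_nonneg (N : ℕ) (v c : V) : 0 ≤ bp N v c := le_max_left _ _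

lemma bp_le_one (N : ℕ) (v c : V) : bp N v c ≤ 1 := by
  refine max_le zero_le_one ?_
  have : 0 ≤ 2 * (D v c : ℝ) / N := by positivity
  linarith

lemma bp_self (N : ℕ) (v : V) : bp N v v = 1 := by simp [bp, D_self]

lemma bp_eq_zero {N : ℕ} (hN : 0 < N) {v c : V} (h : N ≤ D v c) : bp N v c = 0 := by
  unfold bp
  rw [max_eq_left]
  have h1 : (1:ℝ) ≤ 2 * (D v c : ℝ) / N := by
    rw [le_div_iff₀ (by exact_mod_cast hN)]
    have : (N:ℝ) ≤ D v c := by exact_mod_cast h
    have : (0:ℝ) < N := by exact_mod_cast hN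
    linarith
  linarith

lemma lt_of_bp_ne {N : ℕ} (hN : 0 < N) {v c : V} (h : bp N v c ≠ 0) : 2 * D v c < N := by
  by_contra hcon
  apply h
  unfold bp
  rw [max_eq_left]
  have h1 : (1:ℝ) ≤ 2 * (D v c : ℝ) / N := by
    rw [le_div_iff₀ (by exact_mod_cast hN)]
    have : (N:ℝ) ≤ 2 * D v c := by exact_mod_cast (not_lt.1 hcon)
    linarith
  linarith

lemma bp_lip (N : ℕ) {v w : V} (c : V) (h : D v w ≤ 1) : |bp N v c - bp N w c| ≤ 2 / N := by
  unfold bp
  refine (abs_max_sub_max_le_max _ _ _ _).trans ?_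
  have h1 := D_triangle v w c
  have h2 := D_triangle w v c
  rw [D_comm w v] at h2
  have h3 : |(D w c : ℝ) - D v c| ≤ 1 := by
    rw [abs_le]
    constructor
    · have : (D v c : ℝ) ≤ 1 + D w c := by exact_mod_cast h1.trans (by omega)
      linarith
    · have : (D w c : ℝ) ≤ 1 + D v c := by exact_mod_cast h2.trans (by omega)
      linarith
  have e : (1 - 2 * (D v c : ℝ) / N) - (1 - 2 * (D w c : ℝ) / N) =
      (2 / N) * ((D w c : ℝ) - D v c) := by ring
  rw [e, sub_self, abs_zero, abs_mul, abs_of_nonneg (by positivity : (0:ℝ) ≤ 2 / N)]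
  refine max_le (by positivity) ?_
  have : (0:ℝ) ≤ 2 / N := by positivity
  nlinarith

/-- a sum of bumps with separated centres -/
noncomputable def bs (N : ℕ) (S : Finset V) (c : V → V) (a : V → ℂ) (v : V) : ℂ :=
  ∑ i ∈ S, a i * (bp N v (c i) : ℂ)

section bumps

variable {N : ℕ} (hN : 0 < N) {S : Finset V} {c : V → V} {a : V → ℂ} {A : ℝ} (hA : 0 ≤ A)
  (hsep : ∀ i ∈ S, ∀ j ∈ S, i ≠ j → N ≤ D (c i) (c j)) (ha : ∀ i ∈ S, ‖a i‖ ≤ A)

include hN in
lemma bs_zero {v : V} (h : ∀ i ∈ S, N ≤ D v (c i)) : bs N S c a v = 0 := by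
  unfold bs
  refine Finset.sum_eq_zero fun i hi => ?_
  rw [bp_eq_zero hN (h i hi)]; simp

include hN hsep in
lemma bs_center {j : V} (hj : j ∈ S) : bs N S c a (c j) = a j := by
  unfold bs
  rw [Finset.sum_eq_single j]
  · rw [bp_self]; simp
  · intro i hi hij
    rw [bp_eq_zero hN (hsep j hj i hi (Ne.symm hij))]; simp
  · exact fun h => absurd hj h

open Classical in
include hN hsep in
lemma card_le (v : V) : (S.filter (fun i => bp N v (c i) ≠ 0)).card ≤ 1 := by
  rw [Finset.card_le_one]
  intro i hi j hj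
  rw [Finset.mem_filter] at hi hj
  by_contra hij
  have h1 := lt_of_bp_ne hN hi.2
  have h2 := lt_of_bp_ne hN hj.2
  have h3 := hsep i hi.1 j hj.1 hij
  have h4 := D_triangle (c i) v (c j)
  rw [D_comm (c i) v] at h4
  omega

include hN hsep ha hA in
lemma bs_norm (v : V) : ‖bs N S c a v‖ ≤ A := by
  classical
  unfold bs
  refine (norm_sum_le _ _).trans ?_
  have h1 : ∑ i ∈ S, ‖a i * (bp N v (c i) : ℂ)‖ ≤
      ∑ i ∈ S, (if bp N v (c i) ≠ 0 then A else 0) := by
    refine Finset.sum_le_sum fun i hi => ?_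
    rw [norm_mul, Complex.norm_real, Real.norm_of_nonneg (bp_nonneg _ _ _)]
    split_ifs with h
    · calc ‖a i‖ * bp N v (c i) ≤ A * 1 :=
            mul_le_mul (ha i hi) (bp_le_one _ _ _) (bp_nonneg _ _ _) hA
        _ = A := mul_one A
    · rw [not_not.1 h]; simp
  refine h1.trans ?_
  rw [← Finset.sum_filter, Finset.sum_const, nsmul_eq_mul]
  have h2 : ((S.filter (fun i => bp N v (c i) ≠ 0)).card : ℝ) ≤ 1 := by
    exact_mod_cast card_le hN hsep v
  nlinarith

include hN hsep ha hA in
lemma bs_Bd (hroot : ∀ i ∈ S, N ≤ D (0, []) (c i)) : Bd (bs N S c a) (4 * A / N) := by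
  classical
  constructor
  · rw [bs_zero hN hroot, norm_zero]; positivity
  · intro v
    unfold bs
    rw [← Finset.sum_sub_distrib]
    refine (norm_sum_le _ _).trans ?_
    have h1 : ∑ i ∈ S, ‖a i * (bp N v (c i) : ℂ) - a i * (bp N (par v) (c i) : ℂ)‖ ≤
        ∑ i ∈ S, ((if bp N v (c i) ≠ 0 then A * (2 / N) else 0) +
          (if bp N (par v) (c i) ≠ 0 then A * (2 / N) else 0)) := by
      refine Finset.sum_le_sum fun i hi => ?_
      rw [← mul_sub, norm_mul, ← Complex.ofReal_sub, Complex.norm_real, Real.norm_eq_abs]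
      have h2 := bp_lip N (c i) (D_par v)
      have h3 : ‖a i‖ * |bp N v (c i) - bp N (par v) (c i)| ≤ A * (2 / N) :=
        mul_le_mul (ha i hi) h2 (abs_nonneg _) hA
      have h4 : 0 ≤ A * (2 / (N:ℝ)) := by positivity
      split_ifs with h5 h6 h6
      · linarith
      · linarith
      · linarith
      · rw [not_not.1 h5, not_not.1 h6]; simp
    refine h1.trans ?_
    rw [Finset.sum_add_distrib, ← Finset.sum_filter, ← Finset.sum_filter, Finset.sum_const,
      Finset.sum_const, nsmul_eq_mul, nsmul_eq_mul]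
    have h2 : ((S.filter (fun i => bp N v (c i) ≠ 0)).card : ℝ) ≤ 1 := by
      exact_mod_cast card_le hN hsep v
    have h3 : ((S.filter (fun i => bp N (par v) (c i) ≠ 0)).card : ℝ) ≤ 1 := by
      exact_mod_cast card_le hN hsep (par v)
    have h4 : 0 ≤ A * (2 / (N:ℝ)) := by positivity
    have h5 : 4 * A / (N:ℝ) = A * (2 / N) + A * (2 / N) := by ring
    rw [h5]
    nlinarith

include hN in
lemma bs_FS : FS (bs N S c a) := by
  refine FS_of_dep (S.sup (fun i => dep (c i)) + N) (fun v hv => ?_)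
  by_contra hcon
  apply hv
  refine bs_zero hN fun i hi => ?_
  have h1 := dep_le v (c i)
  have h2 : dep (c i) ≤ S.sup (fun i => dep (c i)) := Finset.le_sup (f := fun i => dep (c i)) hi
  omega

end bumps

/-! ### Transitivity -/

lemma exists_bound {f : V → ℂ} (hf : FS f) : ∃ A : ℝ, 0 ≤ A ∧ ∀ v, ‖f v‖ ≤ A := by
  refine ⟨∑ w ∈ hf.toFinset, ‖f w‖, Finset.sum_nonneg fun _ _ => norm_nonneg _, fun v => ?_⟩
  by_cases hv : f v = 0
  · rw [hv, norm_zero]; exact Finset.sum_nonneg fun _ _ => norm_nonneg _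
  · exact Finset.single_le_sum (f := fun w => ‖f w‖) (fun _ _ => norm_nonneg _)
      ((Set.Finite.mem_toFinset hf).2 hv)

lemma trans {f g0 : V → ℂ} (hf : FS f) (hg : FS g0) {δ : ℝ} (hδ : 0 < δ) :
    ∃ (n : ℕ) (E : V → ℂ), FS E ∧ Bd E δ ∧
      Bd (fun v => f (phi^[n] v) + E (phi^[n] v) - g0 v) δ := by
  classical
  obtain ⟨A, hA, hfA⟩ := exists_bound hf
  obtain ⟨A', hA', hgA⟩ := exists_bound hg
  obtain ⟨N, hNbig⟩ := exists_nat_gt (4 * (A + A') / δ)
  have hN1 : (0:ℝ) < (N:ℝ) := lt_of_le_of_lt (by positivity) hNbig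
  have hN : 0 < N := by exact_mod_cast hN1
  have hAN : 4 * A / N + 4 * A' / N ≤ δ := by
    rw [← add_div, div_le_iff₀ hN1]
    rw [div_lt_iff₀ hδ] at hNbig
    linarith
  have hAN' : 4 * A / N ≤ δ := by
    have : 0 ≤ 4 * A' / (N:ℝ) := by positivity
    linarith
  set F : Finset V := hf.toFinset with hF
  set G : Finset V := hg.toFinset with hG
  have memF : ∀ v, v ∈ F ↔ f v ≠ 0 := fun v => Set.Finite.mem_toFinset hf
  have memG : ∀ v, v ∈ G ↔ g0 v ≠ 0 := fun v => Set.Finite.mem_toFinset hg
  obtain ⟨n, h1, h2, hUfin, h4, h5, h6⟩ := good_time F G N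
  set U : Finset V := hUfin.toFinset with hU
  have memU : ∀ w, w ∈ U ↔ phi^[n] w ∈ F := fun w => Set.Finite.mem_toFinset hUfin
  -- the function `g`
  set g : V → ℂ := bs N U id (fun w => f (phi^[n] w)) with hg_def
  have gsep : ∀ i ∈ U, ∀ j ∈ U, i ≠ j → N ≤ D (id i) (id j) := fun i hi j hj hij =>
    h5 i j ((memU i).1 hi) ((memU j).1 hj) hij
  have gBd : Bd g (4 * A / N) := bs_Bd hN hA gsep (fun i _ => hfA _)
    (fun i hi => h4 i ((memU i).1 hi))
  have gnorm : ∀ v, ‖g v‖ ≤ A := fun v => bs_norm hN hA gsep (fun i _ => hfA _) v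
  have gFS : FS g := bs_FS hN
  have gcenter : ∀ v, phi^[n] v ∈ F → g v = f (phi^[n] v) := fun v hv =>
    bs_center hN gsep ((memU v).2 hv)
  -- the set `W`
  set W : Finset V := gFS.toFinset.filter (fun u => phi^[n] u ∉ F) with hW
  have memW : ∀ u, u ∈ W ↔ g u ≠ 0 ∧ phi^[n] u ∉ F := by
    intro u
    rw [hW, Finset.mem_filter]
    exact and_congr_left fun _ => Set.Finite.mem_toFinset gFS
  have hWsep : ∀ u ∈ W, (∀ u', u ≠ u' → N ≤ D (phi^[n] u) (phi^[n] u')) ∧
      N ≤ D (0, []) (phi^[n] u) := by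
    intro u hu
    obtain ⟨hu1, hu2⟩ := (memW u).1 hu
    have : ∃ w ∈ U, D u w < N := by
      by_contra hcon
      push Not at hcon
      exact hu1 (bs_zero hN fun i hi => hcon i hi)
    obtain ⟨w, hw, hDw⟩ := this
    exact h6 u w hu2 ((memU w).1 hw) hDw
  set e : V → ℂ := bs N W (phi^[n]) g with he
  have esep : ∀ i ∈ W, ∀ j ∈ W, i ≠ j → N ≤ D (phi^[n] i) (phi^[n] j) := fun i hi j _ hij =>
    (hWsep i hi).1 j hij
  have eBd : Bd e (4 * A / N) := bs_Bd hN hA esep (fun i _ => gnorm i)
    (fun i hi => (hWsep i hi).2)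
  set un : V → ℂ := bs N G (phi^[n]) g0 with hun
  have usep : ∀ i ∈ G, ∀ j ∈ G, i ≠ j → N ≤ D (phi^[n] i) (phi^[n] j) := fun i hi j _ hij =>
    h1 i hi j (Ne.symm hij)
  have uBd : Bd un (4 * A' / N) := bs_Bd hN hA' usep (fun i _ => hgA i) (fun i hi => h2 i hi)
  refine ⟨n, fun v => e v + un v, (bs_FS hN).add (bs_FS hN), (eBd.add uBd).mono hAN, ?_⟩
  have hun_eq : ∀ v, un (phi^[n] v) = g0 v := by
    intro v
    by_cases hv : v ∈ G
    · exact bs_center hN usep hv
    · have h7 : g0 v = 0 := by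
        by_contra hcon; exact hv ((memG v).2 hcon)
      rw [h7]
      refine bs_zero hN fun i hi => ?_
      rw [D_comm]
      exact h1 i hi v (fun hvi => hv (hvi ▸ hi))
  have he_eq : ∀ v, f (phi^[n] v) + e (phi^[n] v) = g v := by
    intro v
    by_cases hv : phi^[n] v ∈ F
    · have h7 : e (phi^[n] v) = 0 := by
        refine bs_zero hN fun i hi => ?_
        rw [D_comm]
        refine (hWsep i hi).1 v ?_
        rintro rfl
        exact ((memW i).1 hi).2 hv
      rw [h7, gcenter v hv, add_zero]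
    · have h7 : f (phi^[n] v) = 0 := by
        by_contra hcon; exact hv ((memF _).2 hcon)
      rw [h7, zero_add]
      by_cases hgv : g v = 0
      · rw [hgv]
        refine bs_zero hN fun i hi => ?_
        rw [D_comm]
        refine (hWsep i hi).1 v ?_
        rintro rfl
        exact ((memW i).1 hi).1 hgv
      · exact bs_center hN esep ((memW v).2 ⟨hgv, hv⟩)
  have : (fun v => f (phi^[n] v) + (e (phi^[n] v) + un (phi^[n] v)) - g0 v) = g := by
    funext v
    rw [hun_eq v, ← he_eq v]; ring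
  rw [this]
  exact gBd.mono hAN'

/-! ### Approximation by finitely supported functions -/

lemma par_root : par (0, []) = (0, []) := by simp [par, zpar]

lemma dep_par (v : V) : dep (par v) = dep v - 1 := by
  by_cases hv : v = (0, [])
  · subst hv; rw [par_root]; simp [dep]
  · have := tree.depth_parent v hv
    have h2 : dep v = dep (par v) + 1 := this
    omega

lemma dep_iter_par (v : V) (k : ℕ) : dep (par^[k] v) = dep v - k := by
  induction k with
  | zero => simp
  | succ k ih => rw [Function.iterate_succ_apply', dep_par, ih]; omega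

lemma approx_of_InL0 {f : V → ℂ} (hf : tree.InL0 f) {ε : ℝ} (hε : 0 < ε) :
    ∃ g, FS g ∧ Bd (fun v => f v - g v) ε := by
  classical
  obtain ⟨R, hR⟩ := hf (ε/2) (by positivity)
  have hR' : ∀ v, R ≤ dep v → ‖f v - f (par v)‖ < ε / 2 := hR
  set Q : Finset V := (finite_dep R).toFinset with hQ
  have memQ : ∀ v, v ∈ Q ↔ dep v ≤ R := fun v => Set.Finite.mem_toFinset (finite_dep R)
  set A : ℝ := ∑ w ∈ Q, ‖f w‖ with hA
  have hA0 : 0 ≤ A := Finset.sum_nonneg fun _ _ => norm_nonneg _
  have hAle : ∀ v, dep v ≤ R → ‖f v‖ ≤ A := fun v hv =>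
    Finset.single_le_sum (f := fun w => ‖f w‖) (fun _ _ => norm_nonneg _) ((memQ v).2 hv)
  obtain ⟨N, hN⟩ := exists_nat_gt (2 * A / ε)
  have hN1 : (0:ℝ) < (N:ℝ) := lt_of_le_of_lt (by positivity) hN
  have hAN : A / N ≤ ε / 2 := by
    rw [div_lt_iff₀ hε] at hN
    rw [div_le_iff₀ hN1]
    linarith
  set c : V → ℂ := fun v => f (par^[dep v - R] v) with hc
  set τ : V → ℝ := fun v => max 0 (1 - ((dep v - R : ℕ) : ℝ) / N) with hτ
  refine ⟨fun v => c v * (τ v : ℂ), ?_, ?_⟩
  · refine FS_of_dep (R + N) (fun v hv => ?_)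
    by_contra hcon
    apply hv
    have : τ v = 0 := by
      simp only [hτ]
      rw [max_eq_left]
      have h1 : (1:ℝ) ≤ ((dep v - R : ℕ) : ℝ) / N := by
        rw [le_div_iff₀ hN1, one_mul]
        have : N ≤ dep v - R := by omega
        exact_mod_cast this
      linarith
    rw [this]; simp
  · have hlow : ∀ v, dep v ≤ R → f v - c v * (τ v : ℂ) = 0 := by
      intro v hv
      have h1 : dep v - R = 0 := by omega
      simp only [hc, hτ, h1]
      simp
    constructor
    · have := hlow (0, []) (by simp [dep])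
      show ‖f (0, []) - c (0, []) * (τ (0, []) : ℂ)‖ ≤ ε
      rw [this, norm_zero]; exact hε.le
    · intro v
      show ‖(f v - c v * (τ v : ℂ)) - (f (par v) - c (par v) * (τ (par v) : ℂ))‖ ≤ ε
      rcases le_or_gt (dep v) R with hv | hv
      · rw [hlow v hv, hlow (par v) (by rw [dep_par]; omega), sub_zero, norm_zero]
        exact hε.le
      · have h1 : c (par v) = c v := by
          simp only [hc]
          rw [dep_par]
          obtain ⟨k, hk⟩ : ∃ k, dep v - R = k + 1 := ⟨dep v - R - 1, by omega⟩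
          have hk' : dep v - 1 - R = k := by omega
          rw [hk, hk', Function.iterate_succ_apply]
        have h2 : |τ (par v) - τ v| ≤ 1 / N := by
          simp only [hτ]
          refine (abs_max_sub_max_le_max _ _ _ _).trans ?_
          rw [dep_par]
          have h3 : ((dep v - R : ℕ) : ℝ) = ((dep v - 1 - R : ℕ) : ℝ) + 1 := by
            have : dep v - R = (dep v - 1 - R) + 1 := by omega
            rw [this]; push_cast; ring
          rw [h3]
          have e : (1 - ((dep v - 1 - R : ℕ) : ℝ) / N) - (1 - (((dep v - 1 - R : ℕ) : ℝ) + 1) / N)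
              = 1 / N := by ring
          rw [e, sub_self, abs_zero, abs_of_nonneg (by positivity)]
          exact max_le (by positivity) le_rfl
        have h4 : ‖c v‖ ≤ A := by
          apply hAle
          rw [dep_iter_par]; omega
        rw [h1]
        have e : (f v - c v * (τ v : ℂ)) - (f (par v) - c v * (τ (par v) : ℂ)) =
            (f v - f (par v)) + c v * ((τ (par v) - τ v : ℝ) : ℂ) := by push_cast; ring
        rw [e]
        refine (norm_add_le _ _).trans ?_
        have h5 := hR' v hv.le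
        have h6 : ‖c v * ((τ (par v) - τ v : ℝ) : ℂ)‖ ≤ A * (1 / N) := by
          rw [norm_mul, Complex.norm_real, Real.norm_eq_abs]
          exact mul_le_mul h4 h2 (abs_nonneg _) hA0
        have h7 : A * (1 / (N:ℝ)) = A / N := by ring
        rw [h7] at h6
        linarith

/-- complex number with rational coordinates -/
noncomputable def cst (q : ℚ × ℚ) : ℂ := (q.1 : ℂ) + (q.2 : ℂ) * Complex.I

lemma exists_cst (z : ℂ) {η : ℝ} (hη : 0 < η) : ∃ q : ℚ × ℚ, ‖z - cst q‖ ≤ η := by
  obtain ⟨p, hp⟩ := exists_rat_near z.re (show 0 < η / 2 by positivity)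
  obtain ⟨q, hq⟩ := exists_rat_near z.im (show 0 < η / 2 by positivity)
  refine ⟨(p, q), ?_⟩
  refine (Complex.norm_le_abs_re_add_abs_im _).trans ?_
  have e1 : (z - cst (p, q)).re = z.re - p := by simp [cst]
  have e2 : (z - cst (p, q)).im = z.im - q := by simp [cst]
  rw [e1, e2]
  linarith

/-- the finitely supported functions with rational values -/
noncomputable def tgt0 (F : V →₀ ℚ × ℚ) (v : V) : ℂ := cst (F v)

lemma tgt0_FS (F : V →₀ ℚ × ℚ) : FS (tgt0 F) := by
  refine (F.support.finite_toSet).subset ?_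
  intro v hv
  simp only [Finset.mem_coe, Finsupp.mem_support_iff]
  intro h
  apply hv
  simp [tgt0, h, cst]

lemma approx_rat {g : V → ℂ} (hg : FS g) {ε : ℝ} (hε : 0 < ε) :
    ∃ F : V →₀ ℚ × ℚ, Bd (fun v => g v - tgt0 F v) ε := by
  classical
  choose q hq using fun v => exists_cst (g v) (show 0 < ε / 2 by positivity)
  set F : V →₀ ℚ × ℚ := Finsupp.onFinset hg.toFinset
    (fun v => if g v = 0 then 0 else q v) (by
      intro v hv
      rw [Set.Finite.mem_toFinset hg]
      intro h
      apply hv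
      rw [if_pos h]) with hF
  have h1 : ∀ v, ‖g v - tgt0 F v‖ ≤ ε / 2 := by
    intro v
    unfold tgt0
    have e : F v = if g v = 0 then 0 else q v := rfl
    rw [e]
    split_ifs with h
    · rw [h]; simp [cst]; positivity
    · exact hq v
  refine ⟨F, (h1 _).trans (by linarith), fun v => ?_⟩
  refine (norm_sub_le _ _).trans ?_
  have := h1 v
  have := h1 (par v)
  linarith

/-! ### Construction of the hypercyclic vector -/

/-- states -/
abbrev St : Type := {p : (V → ℂ) × ℕ // FS p.1}

lemma step (tgt : ℕ → V → ℂ) (htgt : ∀ k, FS (tgt k)) (k : ℕ) (s : St) : ∃ s' : St,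
    s.1.2 ≤ s'.1.2 ∧ Bd (fun v => s'.1.1 v - s.1.1 v) ((1/2) ^ (k+1) / 4 ^ s.1.2) ∧
    ∃ n, n ≤ s'.1.2 ∧ Bd (fun v => s'.1.1 (phi^[n] v) - tgt k v) ((1/2) ^ (k+1)) := by
  obtain ⟨n, E, hE, hE1, hE2⟩ := trans s.2 (htgt k)
    (show (0:ℝ) < (1/2) ^ (k+1) / 4 ^ s.1.2 by positivity)
  refine ⟨⟨(fun v => s.1.1 v + E v, s.1.2 + n), s.2.add hE⟩, by simp, ?_, n, by simp, ?_⟩
  · have : (fun v => s.1.1 v + E v - s.1.1 v) = E := by funext v; ring
    simp only [this]
    exact hE1
  · refine hE2.mono ?_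
    refine div_le_self (by positivity) (one_le_pow₀ (by norm_num))

lemma exists_hyper (tgt : ℕ → V → ℂ) (htgt : ∀ k, FS (tgt k)) :
    ∃ f : V → ℂ, tree.InL0 f ∧ ∀ k, ∃ n, Bd (fun v => f (phi^[n] v) - tgt k v) ((1/2) ^ k) := by
  classical
  choose next hnext using step tgt htgt
  let σ : ℕ → St := fun k => Nat.rec ⟨(0, 0), by simp [FS]⟩ (fun k s => next k s) k
  have hσ : ∀ k, σ (k+1) = next k (σ k) := fun k => rfl
  set F : ℕ → V → ℂ := fun k => (σ k).1.1 with hF
  set M : ℕ → ℕ := fun k => (σ k).1.2 with hM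
  have hMmono : Monotone M := monotone_nat_of_le_succ fun k => by
    have := (hnext k (σ k)).1
    simpa [hM, hσ] using this
  have hstep : ∀ k, Bd (fun v => F (k+1) v - F k v) ((1/2) ^ (k+1) / 4 ^ (M k)) := fun k =>
    (hnext k (σ k)).2.1
  have hdiff : ∀ k m, k ≤ m → Bd (fun v => F m v - F k v)
      (((1/2) ^ k - (1/2) ^ m) / 4 ^ (M k)) := by
    intro k m hkm
    induction m, hkm using Nat.le_induction with
    | base => simp [Bd]
    | succ m hkm ih =>
      have h1 := (hstep m).add ih
      have e : (fun v => F (m+1) v - F m v + (F m v - F k v)) =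
          fun v => F (m+1) v - F k v := by funext v; ring
      rw [e] at h1
      refine h1.mono ?_
      have h2 : ((1:ℝ)/2) ^ (m+1) / 4 ^ (M m) ≤ (1/2) ^ (m+1) / 4 ^ (M k) := by
        gcongr
        · norm_num
        · exact hMmono hkm
      have h3 : (((1:ℝ)/2) ^ k - (1/2) ^ (m+1)) / 4 ^ (M k) =
          (1/2) ^ (m+1) / 4 ^ (M k) + ((1/2) ^ k - (1/2) ^ m) / 4 ^ (M k) := by
        rw [← add_div]; congr 1; rw [pow_succ]; ring
      rw [h3]
      linarith
  have hcauchy : ∀ v, CauchySeq fun k => F k v := by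
    intro v
    refine cauchySeq_of_le_geometric (1/2) (1 + D v (0, [])) (by norm_num) (fun k => ?_)
    have h1 := hstep k
    have h2 : (1/2:ℝ) ^ (k+1) / 4 ^ (M k) ≤ (1/2) ^ k := by
      refine (div_le_self (by positivity) (one_le_pow₀ (by norm_num))).trans ?_
      exact pow_le_pow_of_le_one (by norm_num) (by norm_num) (Nat.le_succ k)
    have h3 := h1.mono h2
    have h4 := h3.diff v (0, [])
    have h5 := h3.1
    rw [dist_comm, dist_eq_norm]
    simp only at h4 h5
    have h6 : ‖F (k+1) v - F k v‖ ≤ ‖(F (k+1) v - F k v) - (F (k+1) (0, []) - F k (0, []))‖ +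
        ‖F (k+1) (0, []) - F k (0, [])‖ := by
      have := norm_add_le ((F (k+1) v - F k v) - (F (k+1) (0, []) - F k (0, [])))
        (F (k+1) (0, []) - F k (0, []))
      simpa using this
    nlinarith
  choose f hf using fun v => cauchySeq_tendsto_of_complete (hcauchy v)
  have hlim : ∀ k, Bd (fun v => f v - F k v) ((1/2) ^ k / 4 ^ (M k)) := by
    intro k
    have hle : ∀ m, (((1:ℝ)/2) ^ k - (1/2) ^ m) / 4 ^ (M k) ≤ (1/2) ^ k / 4 ^ (M k) := by
      intro m
      gcongr
      have : (0:ℝ) < (1/2) ^ m := by positivity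
      linarith
    constructor
    · refine le_of_tendsto ((hf (0, [])).sub_const _).norm ?_
      filter_upwards [eventually_ge_atTop k] with m hm
      exact (hdiff k m hm).1.trans (hle m)
    · intro v
      refine le_of_tendsto (((hf v).sub_const _).sub ((hf (par v)).sub_const _)).norm ?_
      filter_upwards [eventually_ge_atTop k] with m hm
      exact ((hdiff k m hm).2 v).trans (hle m)
  refine ⟨f, ?_, ?_⟩
  · refine InL0_of_approx fun ε hε => ?_
    obtain ⟨k, hk⟩ := exists_pow_lt_of_lt_one hε (show (1/2:ℝ) < 1 by norm_num)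
    refine ⟨F k, (σ k).2, (hlim k).mono ?_⟩
    exact (div_le_self (by positivity) (one_le_pow₀ (by norm_num))).trans hk.le
  · intro k
    obtain ⟨n, hn, hb⟩ := (hnext k (σ k)).2.2
    refine ⟨n, ?_⟩
    have h1 := (hlim (k+1)).iter n
    have h2 := h1.add hb
    have hn' : n ≤ M (k+1) := hn
    have e : (fun v => ((fun v => f v - F (k+1) v) ∘ phi^[n]) v +
        ((next k (σ k)).1.1 (phi^[n] v) - tgt k v)) = fun v => f (phi^[n] v) - tgt k v := by
      funext v
      have : (next k (σ k)).1.1 (phi^[n] v) = F (k+1) (phi^[n] v) := rfl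
      rw [this]
      simp only [Function.comp_apply]
      ring
    rw [e] at h2
    refine h2.mono ?_
    have h3 : (4:ℝ) ^ n * ((1/2) ^ (k+1) / 4 ^ (M (k+1))) ≤ (1/2) ^ (k+1) := by
      rw [mul_div_assoc', div_le_iff₀ (by positivity), mul_comm]
      gcongr
      norm_num
    have h4 : ((1:ℝ)/2) ^ k = (1/2) ^ (k+1) + (1/2) ^ (k+1) := by rw [pow_succ]; ring
    rw [h4]
    linarith

lemma hypercyclic : tree.Hypercyclic 1 phi := by
  classical
  obtain ⟨en, hen⟩ := exists_surjective_nat ((V →₀ ℚ × ℚ) × ℕ)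
  obtain ⟨f, hf, hk⟩ := exists_hyper (fun k => tgt0 (en k).1) (fun k => tgt0_FS _)
  refine ⟨f, hf, fun h hh ε hε => ?_⟩
  obtain ⟨g, hg, hb⟩ := approx_of_InL0 hh (show 0 < ε / 8 by positivity)
  obtain ⟨F, hF⟩ := approx_rat hg (show 0 < ε / 8 by positivity)
  obtain ⟨k0, hk0⟩ := exists_pow_lt_of_lt_one (show 0 < ε / 4 by positivity)
    (show (1/2:ℝ) < 1 by norm_num)
  -- there is `k ≥ k0` with `(en k).1 = F`
  obtain ⟨k, hkk, hkF⟩ : ∃ k, k0 ≤ k ∧ (en k).1 = F := by
    by_contra hcon
    push Not at hcon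
    choose r hr using fun m => hen (F, m)
    have hlt : ∀ m, r m < k0 := by
      intro m
      by_contra hge
      exact hcon (r m) (not_lt.1 hge) (by rw [hr m])
    have hinj : Function.Injective r := by
      intro a b hab
      have := (hr a).symm.trans ((congrArg en hab).trans (hr b))
      exact congrArg Prod.snd this
    have := Set.infinite_range_of_injective hinj
    exact this ((Set.finite_lt_nat k0).subset (by rintro _ ⟨m, rfl⟩; exact hlt m))
  obtain ⟨n, hn⟩ := hk k
  refine ⟨n, ?_⟩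
  rw [hkF] at hn
  have h1 := ((hn.add hF.neg).add hb.neg)
  have e : (fun v => f (phi^[n] v) - tgt0 F v + -(g v - tgt0 F v) + -(h v - g v)) =
      fun v => (1:ℂ) ^ n * f (phi^[n] v) - h v := by
    funext v; rw [one_pow]; ring
  rw [e] at h1
  have h2 := normL_le h1
  have h3 : ((1:ℝ)/2) ^ k ≤ (1/2) ^ k0 := pow_le_pow_of_le_one (by norm_num) (by norm_num) hkk
  linarith

lemma Bd_normL {f : V → ℂ} (hf : tree.InL0 f) : Bd f (tree.normL f) := by
  classical
  obtain ⟨R, hR⟩ := hf 1 one_pos
  set Q : Finset V := (finite_dep R).toFinset with hQ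
  have memQ : ∀ v, v ∈ Q ↔ dep v ≤ R := fun v => Set.Finite.mem_toFinset (finite_dep R)
  have hbdd : BddAbove (Set.range fun v : {v : V // v ≠ tree.root} =>
      ‖f v - f (tree.parent v)‖) := by
    refine ⟨1 + ∑ w ∈ Q, ‖f w - f (tree.parent w)‖, ?_⟩
    rintro _ ⟨v, rfl⟩
    have h0 : 0 ≤ ∑ w ∈ Q, ‖f w - f (tree.parent w)‖ :=
      Finset.sum_nonneg fun _ _ => norm_nonneg _
    rcases le_or_gt R (dep v) with hv | hv
    · have := hR v hv
      simp only
      linarith
    · have := Finset.single_le_sum (f := fun w => ‖f w - f (tree.parent w)‖)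
        (fun _ _ => norm_nonneg _) ((memQ v).2 hv.le)
      simp only at this ⊢
      linarith
  refine ⟨le_max_left _ _, fun v => ?_⟩
  by_cases hv : v = (0, [])
  · subst hv
    rw [par_root, sub_self, norm_zero]
    exact (norm_nonneg _).trans (le_max_left _ _)
  · exact (le_ciSup hbdd ⟨v, hv⟩).trans (le_max_right _ _)

lemma boundedComp : tree.BoundedComp phi := by
  refine ⟨4, fun f hf => ⟨?_, ?_⟩⟩
  · refine InL0_of_approx fun ε hε => ?_
    obtain ⟨g, hg, hb⟩ := approx_of_InL0 hf (show 0 < ε / 4 by positivity)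
    refine ⟨g ∘ phi, hg.comp_phi, ?_⟩
    have := hb.comp
    exact this.mono (by linarith)
  · exact normL_le (Bd_normL hf).comp

/-- Main theorem.  Disproof of Q1: there are a rooted locally finite tree `T` in which every
vertex has a child, a self-map `φ` of its vertex set such that `C_φ` is a bounded operator on
`L₀(T)`, and `λ` with `|λ| ≥ 1` (namely `λ = 1`) such that `λ C_φ` is hypercyclic, although
`N_v(φ)` is infinite for some vertex `v`. -/
theorem result : ∃ (V : Type) (T : RootedTree V) (φ : V → V) (lam : ℂ) (v : V),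
    T.BoundedComp φ ∧ 1 ≤ ‖lam‖ ∧ T.Hypercyclic lam φ ∧
      {n : ℕ | 1 ≤ n ∧ {w | φ^[n] w = v}.Nonempty}.Infinite := by
  refine ⟨V, tree, phi, 1, (0, []), boundedComp, by simp, hypercyclic, ?_⟩
  refine (Set.Ici_infinite 1).mono ?_
  intro n hn
  refine ⟨hn, ((2:ℤ) ^ n - 1, []), ?_⟩
  have h1 := (iter_Z (x := (2:ℤ) ^ n - 1) (Or.inr ⟨n, rfl⟩) n).1
  show phi^[n] ((2:ℤ) ^ n - 1, []) = (0, [])
  rw [h1, iter_pos_le le_rfl]
  simp

end Pool.Agent.Results.MP_349e68_an.InfiniteBackwardOrbit
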